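import Pool.Agent.N436.DF.Stm3

open Finset
open Pool.Agent.N436.DF

namespace Pool.Agent.N215.DF.T2abc

variable {V : Type} [DecidableEq V]

theorem sv_nn (H : Hub V) (ok : Ok P13 H) (f : V → Bool) (s : V → V → ℤ) (x z : V)
    (hs : 0 ≤ s x z) : 0 ≤ sv H f s x z := by
  unfold sv
  have hm := ok.m_nn x z
  rcases ok.r01 x z with hr | hr <;> rw [hr] <;> split_ifs <;> omega

theorem sv_t (H : Hub V) (ok : Ok P13 H) (f : V → Bool) (s : V → V → ℤ) (x z : V)
    (hs : 0 ≤ s x z) (hf : f x = true) : 2 * (H.r x z + H.m x z) ≤ sv H f s x z := by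
  unfold sv
  have hm := ok.m_nn x z
  rcases ok.r01 x z with hr | hr <;> rw [hr] <;> simp only [hf, if_true] <;> split_ifs <;> omega

theorem sv_t1 (H : Hub V) (ok : Ok P13 H) (f : V → Bool) (s : V → V → ℤ) (x z : V)
    (hs : 1 ≤ s x z) (hf : f x = true) (hr : H.r x z = 1) :
    2 * (H.r x z + H.m x z) + 5 ≤ sv H f s x z := by
  unfold sv
  have hm := ok.m_nn x z
  rw [hr] <;> simp only [hf, if_true] <;> split_ifs <;> omega

theorem sv_f1 (H : Hub V) (ok : Ok P13 H) (f : V → Bool) (s : V → V → ℤ) (x z : V)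
    (hs : 1 ≤ s x z) (hf : f x = false) (hr : H.r x z = 1) :
    9 ≤ sv H f s x z := by
  unfold sv
  have hm := ok.m_nn x z
  rw [hr]
  simp only [hf, Bool.false_eq_true, if_false]
  split_ifs <;> omega

theorem sv_f2 (H : Hub V) (ok : Ok P13 H) (f : V → Bool) (s : V → V → ℤ) (x z : V)
    (hs : 1 ≤ s x z) (hf : f x = false) (h : 1 ≤ H.r x z + H.m x z) :
    5 ≤ sv H f s x z := by
  unfold sv
  have hm := ok.m_nn x z
  simp only [hf, Bool.false_eq_true, if_false]
  rcases ok.r01 x z with hr | hr <;> rw [hr] at h ⊢ <;> split_ifs <;> omega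

theorem fin (hb : S3_base) (hk : S3_kill) {H : Hub V} {S X : Finset V} {v y₁ y₂ : V} {ν : ℤ}
    (T : T2 H S X v y₁ y₂ ν) (f : V → Bool) (p s : V → V → ℤ) (hcol : ColBy H X f p)
    (hnn : ∀ x z, 0 ≤ s x z)
    (hcap : ∀ x ∈ X, load H X f p x + ∑ z ∈ S \ X, s x z ≤ H.c (f x) x)
    (h1 : ν ≤ ∑ x ∈ X, ∑ z ∈ S \ X, sv H f s x z)
    (h2 : ∀ C, C ⊆ S \ X → y₁ ∈ C → y₂ ∈ C → 8 ≤ ∑ x ∈ X, ∑ z ∈ C, sv H f s x z)
    (h3 : ∀ C, C ⊆ S \ X → (y₁ ∈ C ∨ y₂ ∈ C) →
      ν - 12 ≤ ∑ x ∈ X, ∑ z ∈ C, sv H f s x z) : False := by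
  have ok := T.mc.ok
  obtain ⟨-, -, -, -, hb5⟩ := hb V H ok
  obtain ⟨hb6, hb7⟩ := hb5 S T.mc
  obtain ⟨C, hCs, hCn, hC⟩ := hk V H S X f p s T.mc T.sub ⟨v, T.hv⟩ hcol hnn hcap
  rw [T.hν] at hC
  have hnnT : 0 ≤ ∑ x ∈ X, ∑ z ∈ C, sv H f s x z :=
    Finset.sum_nonneg fun x _ => Finset.sum_nonneg fun z _ => sv_nn H ok f s x z (hnn x z)
  have hsub : X ∪ C ⊆ S := Finset.union_subset T.sub (hCs.trans Finset.sdiff_subset)
  have hvU : v ∈ X ∪ C := Finset.mem_union_left _ T.hv
  have hy1S := (Finset.mem_sdiff.1 T.hy₁)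
  have hy2S := (Finset.mem_sdiff.1 T.hy₂)
  have hle := T.le
  by_cases hy : y₁ ∈ C ∨ y₂ ∈ C
  swap
  · push Not at hy
    have hRB2 : RB2 H S (X ∪ C) := by
      refine ⟨v, hvU, y₁, ?_, y₂, ?_, T.ne, T.r₁, T.r₂⟩
      · simp [hy1S.1, hy1S.2, hy.1]
      · simp [hy2S.1, hy2S.2, hy.2]
    have := T.min _ hsub hRB2
    linarith
  by_cases hRB : RB H S (X ∪ C)
  · have h10 := T.rb10 _ hsub hRB
    have := h3 C hCs hy
    linarith
  · have hy1 : y₁ ∈ C := by
      by_contra h
      exact hRB ⟨v, hvU, y₁, by simp [hy1S.1, hy1S.2, h], T.r₁⟩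
    have hy2 : y₂ ∈ C := by
      by_contra h
      exact hRB ⟨v, hvU, y₂, by simp [hy2S.1, hy2S.2, h], T.r₂⟩
    by_cases hS : X ∪ C = S
    · have hCC : C = S \ X := by
        apply Finset.Subset.antisymm hCs
        intro a ha
        have ha' := Finset.mem_sdiff.1 ha
        have : a ∈ X ∪ C := by rw [hS]; exact ha'.1
        rcases Finset.mem_union.1 this with h | h
        · exact absurd h ha'.2
        · exact h
      have h6 := hb6 S (Finset.Subset.refl _) ⟨y₁, hy1S.1⟩
      rw [hS] at hC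
      rw [hCC] at hC
      linarith
    · have h7 := (hb7 _ hsub ⟨v, hvU⟩ hS).2
      have h8 := h2 C hCs hy1 hy2
      linarith

theorem gen (hb : S3_base) (hs : S3_state) (hk : S3_kill) {H : Hub V} {S X : Finset V}
    {v y₁ y₂ : V} {ν : ℤ} (T : T2 H S X v y₁ y₂ ν) (R : Finset V) (hR : R ⊆ X.erase v)
    (hR1 : ∀ x ∈ R, 1 ≤ ∑ z ∈ S \ X, (H.r x z + H.m x z))
    (t q : ℤ) (htq : (t = 1 ∧ q = 9 ∧ ν ≤ 12) ∨ (t = 2 ∧ q = 11 ∧ 3 ≤ bo H S X v))
    (hc1 : 5 + 3 * t + 3 * (R.card : ℤ) ≤ ν + 2) (hc2 : 3 * (R.card : ℤ) ≤ 7)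
    (hq : ν ≤ q + ∑ x ∈ R, min 5 (2 * ∑ z ∈ S \ X, (H.r x z + H.m x z))) : False := by
  have ok := T.mc.ok
  have hle := T.le
  have hvR : v ∉ R := fun h => (Finset.mem_erase.1 (hR h)).1 rfl
  have hy1S := (Finset.mem_sdiff.1 T.hy₁)
  have hy2S := (Finset.mem_sdiff.1 T.hy₂)
  have ht : 1 ≤ t := by rcases htq with h | h <;> omega
  have hzz : ∀ x, ∃ z, x ∈ R → z ∈ S \ X ∧ 1 ≤ H.r x z + H.m x z := by
    intro x
    by_cases hx : x ∈ R
    · by_contra hcon
      push Not at hcon
      have h0 : ∑ z ∈ S \ X, (H.r x z + H.m x z) ≤ 0 := by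
        apply Finset.sum_nonpos
        intro z hz
        have := (hcon z).2 hz
        omega
      have := hR1 x hx
      omega
    · exact ⟨x, fun h => absurd h hx⟩
  choose zz hzz using hzz
  set l : Bool → V → ℤ := fun i x => if x = v then (if i = true then 1 else t)
    else if x ∈ R ∧ i = false then 1 else 0 with hl
  have hl0 : ∀ i x, 0 ≤ l i x := by
    intro i x
    simp only [hl]
    split_ifs <;> omega
  have hcost : ∀ C, C ⊆ X → C.Nonempty → cost l C ≤ hp H C + 2 := by
    intro C hC hCn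
    have e1 : cost l C = (if v ∈ C then 5 + 3 * t else 0) + 3 * ((C ∩ R).card : ℤ) := by
      unfold cost
      have : ∀ z ∈ C, 5 * l true z + 3 * l false z =
          (if z = v then 5 + 3 * t else 0) + (if z ∈ R then 3 else 0) := by
        intro z _
        simp only [hl]
        by_cases hz : z = v
        · subst hz; simp [hvR]
        · by_cases hzR : z ∈ R <;> simp [hz, hzR]
      rw [Finset.sum_congr rfl this, Finset.sum_add_distrib, Finset.sum_ite_eq']
      congr 1
      rw [← Finset.sum_filter, Finset.sum_const, Finset.filter_mem_eq_inter]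
      simp [mul_comm]
    have e2 : ((C ∩ R).card : ℤ) ≤ R.card := by
      exact_mod_cast Finset.card_le_card Finset.inter_subset_right
    rw [e1]
    by_cases hvC : v ∈ C
    · rw [if_pos hvC]
      have : ν ≤ hp H C := T.min C (hC.trans T.sub) ⟨v, hvC, y₁,
        Finset.mem_sdiff.2 ⟨hy1S.1, fun h => hy1S.2 (hC h)⟩, y₂,
        Finset.mem_sdiff.2 ⟨hy2S.1, fun h => hy2S.2 (hC h)⟩, T.ne, T.r₁, T.r₂⟩
      linarith
    · rw [if_neg hvC]
      have : 5 ≤ hp H C := by
        by_cases hRB : RB H S C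
        · have := T.rb10 C (hC.trans T.sub) hRB
          linarith
        · exact T.cl5 C (hC.trans T.sub) hCn hRB
            ⟨v, Finset.mem_sdiff.2 ⟨T.sub T.hv, hvC⟩, y₁, hy1S.1, T.r₁⟩
      linarith
  have hXS : X ≠ S := by
    intro h
    exact hy1S.2 (h ▸ hy1S.1)
  obtain ⟨f, p, hcol, hld⟩ := hs V H S X l T.mc T.sub hXS hl0 hcost
  set s : V → V → ℤ := fun a b =>
    if a = v then (if b = y₁ then 1 else 0) + (if b = y₂ then (if f v = false ∧ t = 2 then 1 else 0)
      else 0)
    else if b = zz a then (if a ∈ R ∧ f a = false then 1 else 0) else 0 with hsdef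
  have hnn : ∀ x z, 0 ≤ s x z := by
    intro x z
    simp only [hsdef]
    split_ifs <;> omega
  have hcap : ∀ x ∈ X, load H X f p x + ∑ z ∈ S \ X, s x z ≤ H.c (f x) x := by
    intro x hx
    have h1 := (hld x hx).1
    have h2 : ∑ z ∈ S \ X, s x z ≤ l (f x) x := by
      simp only [hsdef, hl]
      by_cases hxv : x = v
      · subst hxv
        simp only [if_true]
        rw [Finset.sum_add_distrib, Finset.sum_ite_eq', Finset.sum_ite_eq', if_pos T.hy₁,
          if_pos T.hy₂]
        rcases htq with h | h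
        · rw [h.1]
          cases hfx : f x <;> simp
        · rw [h.1]
          cases hfx : f x <;> simp
      · simp only [hxv, if_false]
        rw [Finset.sum_ite_eq']
        by_cases hxR : x ∈ R
        · rw [if_pos (hzz x hxR).1]
        · simp [hxR]
    linarith
  have hrow0 : ∀ x, ∀ C : Finset V, 0 ≤ ∑ z ∈ C, sv H f s x z := fun x C =>
    Finset.sum_nonneg fun z _ => sv_nn H ok f s x z (hnn x z)
  have hsy1 : s v y₁ = 1 := by
    simp only [hsdef, if_true]
    rw [if_neg T.ne]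
    simp
  -- rows of `R`
  have hrowR : ∀ x ∈ R, min 5 (2 * ∑ z ∈ S \ X, (H.r x z + H.m x z)) ≤
      ∑ z ∈ S \ X, sv H f s x z := by
    intro x hx
    have hxv : x ≠ v := fun h => hvR (h ▸ hx)
    cases hfx : f x with
    | true =>
      refine le_trans (min_le_right _ _) ?_
      rw [Finset.mul_sum]
      exact Finset.sum_le_sum fun z _ => sv_t H ok f s x z (hnn x z) hfx
    | false =>
      refine le_trans (min_le_left _ _) ?_
      have h5 : 5 ≤ sv H f s x (zz x) := by
        apply sv_f2 H ok f s x (zz x) _ hfx (hzz x hx).2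
        simp [hsdef, hxv, hx, hfx]
      exact le_trans h5 (Finset.single_le_sum (f := fun z => sv H f s x z)
        (fun z _ => sv_nn H ok f s x z (hnn x z)) (hzz x hx).1)
  -- the total is at least the row of `v`
  have htot : ∀ C : Finset V, ∑ z ∈ C, sv H f s v z ≤ ∑ x ∈ X, ∑ z ∈ C, sv H f s x z := by
    intro C
    exact Finset.single_le_sum (f := fun x => ∑ z ∈ C, sv H f s x z) (fun x _ => hrow0 x C) T.hv
  have hpair : ∀ C : Finset V, y₁ ∈ C → y₂ ∈ C →
      sv H f s v y₁ + sv H f s v y₂ ≤ ∑ z ∈ C, sv H f s v z := by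
    intro C h1 h2
    rw [← Finset.sum_pair T.ne]
    apply Finset.sum_le_sum_of_subset_of_nonneg
    · intro a ha
      simp only [Finset.mem_insert, Finset.mem_singleton] at ha
      rcases ha with rfl | rfl <;> assumption
    · intro z _ _
      exact sv_nn H ok f s v z (hnn v z)
  have hv1 : 7 ≤ sv H f s v y₁ := by
    cases hfv : f v with
    | true =>
      have := sv_t1 H ok f s v y₁ (by omega) hfv T.r₁
      have := ok.m_nn v y₁
      have := T.r₁
      omega
    | false =>
      have := sv_f1 H ok f s v y₁ (by omega) hfv T.r₁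
      omega
  have hv12 : 9 ≤ sv H f s v y₁ + sv H f s v y₂ := by
    cases hfv : f v with
    | true =>
      have := sv_t H ok f s v y₂ (hnn _ _) hfv
      have := ok.m_nn v y₂
      have := T.r₂
      omega
    | false =>
      have := sv_f1 H ok f s v y₁ (by omega) hfv T.r₁
      have := sv_nn H ok f s v y₂ (hnn _ _)
      omega
  -- the row of `v`
  have hrowv : q ≤ ∑ z ∈ S \ X, sv H f s v z := by
    rcases htq with h | h
    · have := hpair _ T.hy₁ T.hy₂
      omega
    · cases hfv : f v with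
      | true =>
        have h1 : ∑ z ∈ S \ X, (2 * (H.r v z + H.m v z) + (if z = y₁ then 5 else 0)) ≤
            ∑ z ∈ S \ X, sv H f s v z := by
          apply Finset.sum_le_sum
          intro z _
          by_cases hz : z = y₁
          · rw [if_pos hz, hz]
            exact sv_t1 H ok f s v y₁ (by omega) hfv T.r₁
          · rw [if_neg hz, add_zero]
            exact sv_t H ok f s v z (hnn v z) hfv
        rw [Finset.sum_add_distrib, ← Finset.mul_sum, Finset.sum_ite_eq', if_pos T.hy₁] at h1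
        have h2 := h.2.2
        unfold bo at h2
        omega
      | false =>
        have h2 : 9 ≤ sv H f s v y₂ := by
          apply sv_f1 H ok f s v y₂ _ hfv T.r₂
          simp [hsdef, hfv, h.1, T.ne.symm]
        have := hpair _ T.hy₁ T.hy₂
        omega
  refine fin hb hk T f p s hcol hnn hcap ?_ ?_ ?_
  · have h1 : ∑ x ∈ X, ∑ z ∈ S \ X, sv H f s x z =
        ∑ z ∈ S \ X, sv H f s v z + ∑ x ∈ X.erase v, ∑ z ∈ S \ X, sv H f s x z :=
      (Finset.add_sum_erase X (fun x => ∑ z ∈ S \ X, sv H f s x z) T.hv).symm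
    have h2 : ∑ x ∈ R, ∑ z ∈ S \ X, sv H f s x z ≤
        ∑ x ∈ X.erase v, ∑ z ∈ S \ X, sv H f s x z :=
      Finset.sum_le_sum_of_subset_of_nonneg hR fun x _ _ => hrow0 x _
    have h3 := Finset.sum_le_sum hrowR
    linarith
  · intro C _ h1 h2
    have := htot C
    have := hpair C h1 h2
    linarith
  · intro C _ hy
    rcases htq with h | h
    · have := htot C
      have := hrow0 v C
      linarith [h.2.2]
    · have hA := htot C
      have hB : 1 ≤ ∑ z ∈ C, sv H f s v z := by
        rcases hy with hy | hy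
        · have := Finset.single_le_sum (f := fun z => sv H f s v z)
            (fun z _ => sv_nn H ok f s v z (hnn v z)) hy
          linarith
        · have h5 := Finset.single_le_sum (f := fun z => sv H f s v z)
            (fun z _ => sv_nn H ok f s v z (hnn v z)) hy
          have h6 : 2 ≤ sv H f s v y₂ := by
            cases hfv : f v with
            | true =>
              have := sv_t H ok f s v y₂ (hnn _ _) hfv
              have := ok.m_nn v y₂
              have := T.r₂
              omega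
            | false =>
              have : 9 ≤ sv H f s v y₂ := by
                apply sv_f1 H ok f s v y₂ _ hfv T.r₂
                simp [hsdef, hfv, h.1, T.ne.symm]
              omega
          linarith
      linarith

theorem ten {H : Hub V} {S X : Finset V} {v y₁ y₂ : V} {ν : ℤ} (T : T2 H S X v y₁ y₂ ν) :
    10 ≤ ν := by
  rw [← T.hν]
  exact T.rb10 X T.sub ⟨v, T.hv, y₁, T.hy₁, T.r₁⟩

theorem pick {H : Hub V} {S X : Finset V} (A : Finset V)
    (h : 1 ≤ ∑ x ∈ A, ∑ z ∈ S \ X, (H.r x z + H.m x z)) :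
    ∃ x ∈ A, 1 ≤ ∑ z ∈ S \ X, (H.r x z + H.m x z) := by
  by_contra hcon
  push Not at hcon
  have : ∑ x ∈ A, ∑ z ∈ S \ X, (H.r x z + H.m x z) ≤ 0 := by
    apply Finset.sum_nonpos
    intro x hx
    have := hcon x hx
    omega
  omega

theorem t2a (hb : S3_base) (hs : S3_state) (hk : S3_kill) : S3_t2a := by
  intro V _ H S X v y₁ y₂ ν T he hν
  obtain ⟨x, hx, hd⟩ := pick (X.erase v) he
  have h10 := ten T
  refine gen hb hs hk T {x} (by simpa using hx) (by simpa using hd) 1 9
    (Or.inl ⟨rfl, rfl, by omega⟩) ?_ ?_ ?_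
  · simp; omega
  · simp
  · rw [Finset.sum_singleton]
    omega

theorem t2b (hb : S3_base) (hs : S3_state) (hk : S3_kill) : S3_t2b := by
  intro V _ H S X v y₁ y₂ ν T he hν
  unfold eo at he
  obtain ⟨x, hx, hd⟩ := pick (S := S) (X := X) (H := H) (X.erase v) (by omega)
  by_cases hd2 : 2 ≤ ∑ z ∈ S \ X, (H.r x z + H.m x z)
  · refine gen hb hs hk T {x} (by simpa using hx) (by simpa using hd) 1 9
      (Or.inl ⟨rfl, rfl, by omega⟩) ?_ ?_ ?_
    · simp; omega
    · simp
    · rw [Finset.sum_singleton]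
      omega
  · have hsplit := Finset.add_sum_erase (X.erase v)
      (fun x => ∑ z ∈ S \ X, (H.r x z + H.m x z)) hx
    obtain ⟨x', hx', hd'⟩ := pick (S := S) (X := X) (H := H) ((X.erase v).erase x) (by omega)
    have hx'1 := Finset.mem_erase.1 hx'
    have hcard : (({x, x'} : Finset V).card : ℤ) = 2 := by
      rw [Finset.card_pair hx'1.1.symm]; rfl
    refine gen hb hs hk T {x, x'} ?_ ?_ 1 9 (Or.inl ⟨rfl, rfl, by omega⟩) ?_ ?_ ?_
    · intro a ha
      simp only [Finset.mem_insert, Finset.mem_singleton] at ha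
      rcases ha with rfl | rfl
      · exact hx
      · exact hx'1.2
    · intro a ha
      simp only [Finset.mem_insert, Finset.mem_singleton] at ha
      rcases ha with rfl | rfl
      · exact hd
      · exact hd'
    · rw [hcard]; omega
    · rw [hcard]; omega
    · rw [Finset.sum_pair hx'1.1.symm]
      omega

theorem t2c (hb : S3_base) (hs : S3_state) (hk : S3_kill) : S3_t2c := by
  intro V _ H S X v y₁ y₂ ν T he hν hbo
  obtain ⟨x, hx, hd⟩ := pick (X.erase v) he
  have hle := T.le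
  refine gen hb hs hk T {x} (by simpa using hx) (by simpa using hd) 2 11
    (Or.inr ⟨rfl, rfl, hbo⟩) ?_ ?_ ?_
  · simp; omega
  · simp
  · rw [Finset.sum_singleton]
    omega

end Pool.Agent.N215.DF.T2abc
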